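import Mathlib

set_option autoImplicit false

/-!
# The state complexity of the shifts of the Fibonacci-Thue-Morse sequence is not `Θ(c)`

For `c = F_{13n+1}` the shifted sequence `(t(i+c))` is generated by a Fibonacci-DFAO with at most
`11 * 520 ^ n` states, while `c` grows like `φ^{13n}` and `φ^13 = 521.00...`.

An explicit automaton reads `y` together with the position `m` of the summand `F_m` and outputs the
parity of the Fibonacci representation of `[y] + F_m`. In this automaton the two blocks
`0010010101000` and `0010101001000` of length 13 act in the same way, for every position of the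
mark, so that in all words the first can be replaced by the second. Counting the words in which it
does not occur as an aligned block gives the bound.
-/

open Nat

namespace Pool.Agent.Results.MP_0deb22_lc.LiminfZero

/-! ### Statement -/

/-- The number with digits `x`, most significant digit first; the last digit has weight `F_2`. -/
def val : List Bool → ℕ
  | [] => 0
  | b :: x => (if b then fib (x.length + 2) else 0) + val x

/-- No two consecutive digits are equal to `1`. -/
def NoAdj (x : List Bool) : Prop := x.IsChain (fun a b => ¬ (a = true ∧ b = true))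

/-- The Fibonacci-Thue-Morse sequence. -/
def t (i : ℕ) : ℕ := (zeckendorf i).length % 2

/-- Fibonacci-DFAOs: a finite set of states `Q`, a partial transition function, an initial state and
an output map. -/
structure FibDFAO where
  Q : Type
  fin : Fintype Q
  δ : Q → Bool → Option Q
  q0 : Q
  τ : Q → ℕ

/-- The extension of the transition function to words. -/
def FibDFAO.runFrom (M : FibDFAO) : M.Q → List Bool → Option M.Q
  | q, [] => some q
  | q, a :: x => (M.δ q a).bind fun q' => M.runFrom q' x

/-- `M` generates the sequence `h`. -/
def FibDFAO.Generates (M : FibDFAO) (h : ℕ → ℕ) : Prop :=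
  ∀ x : List Bool, NoAdj x → ∃ q, M.runFrom M.q0 x = some q ∧ M.τ q = h (val x)

/-- The number of states. -/
def FibDFAO.numStates (M : FibDFAO) : ℕ := @Fintype.card M.Q M.fin

/-- The least number of states of a Fibonacci-DFAO generating `(t(i+c))`. -/
noncomputable def S (c : ℕ) : ℕ :=
  sInf {k | ∃ M : FibDFAO, M.Generates (fun i => t (i + c)) ∧ M.numStates = k}

/-! ### Words -/

/-- `x` has no two adjacent ones, and does not start with a one if `e` -/
def ok : Bool → List Bool → Prop
  | _, [] => True
  | _, false :: x => ok false x
  | e, true :: x => e = false ∧ ok true x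

instance decOk : ∀ (e : Bool) (x : List Bool), Decidable (ok e x)
  | _, [] => isTrue trivial
  | _, false :: x => decOk false x
  | e, true :: x => @instDecidableAnd _ _ _ (decOk true x)

/-- the last digit, `e` for the empty word -/
def lst : Bool → List Bool → Bool
  | e, [] => e
  | _, a :: x => lst a x

theorem ok_append (e : Bool) (x y : List Bool) : ok e (x ++ y) ↔ ok e x ∧ ok (lst e x) y := by
  induction x generalizing e with
  | nil => simp [ok, lst]
  | cons a x ih =>
    cases a with
    | false => simp [ok, lst, ih]
    | true => simp [ok, lst, ih, and_assoc]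

theorem lst_append (e : Bool) (x y : List Bool) : lst e (x ++ y) = lst (lst e x) y := by
  induction x generalizing e with
  | nil => simp [lst]
  | cons a x ih => simp [lst, ih]

theorem ok_of_ok_true {x : List Bool} (e : Bool) (h : ok true x) : ok e x := by
  cases x with
  | nil => trivial
  | cons a x =>
    cases a with
    | false => exact h
    | true => exact absurd h.1 (by simp)

theorem noAdj_iff (x : List Bool) : NoAdj x ↔ ok false x := by
  unfold NoAdj
  induction x with
  | nil => simp [ok]
  | cons a x ih =>
    cases x with
    | nil => cases a <;> simp [ok]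
    | cons b x =>
      rw [List.isChain_cons_cons, ih]
      cases a <;> cases b <;> simp [ok]

theorem val_append (x y : List Bool) :
    val (x ++ y) = val (x ++ List.replicate y.length false) + val y := by
  induction x with
  | nil =>
    have : ∀ k, val (List.replicate k false) = 0 := by
      intro k
      induction k with
      | zero => rfl
      | succ k ih => simp [List.replicate_succ, val, ih]
    simp [this]
  | cons a x ih =>
    simp only [List.cons_append, val, List.length_append, List.length_replicate]
    rw [ih]
    ring

theorem val_replicate_append (k : ℕ) (x : List Bool) : val (List.replicate k false ++ x) = val x := by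
  induction k with
  | zero => rfl
  | succ k ih => simp [List.replicate_succ, val, ih]

theorem val_lt {e : Bool} {x : List Bool} (h : ok e x) :
    val x < fib (x.length + (if e then 1 else 2)) := by
  induction x generalizing e with
  | nil => cases e <;> simp [val]
  | cons a x ih =>
    cases a with
    | false =>
      have h1 := ih (e := false) h
      simp only [Bool.false_eq_true, if_false] at h1
      simp only [val, Bool.false_eq_true, if_false, List.length_cons, zero_add]
      refine h1.trans_le (fib_mono ?_)
      split <;> omega
    | true =>
      obtain ⟨rfl, h2⟩ := h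
      have h1 := ih h2
      simp only [if_true] at h1
      simp only [val, Bool.false_eq_true, if_false, if_true, List.length_cons]
      have h3 : fib (x.length + 1 + 2) = fib (x.length + 1) + fib (x.length + 2) := fib_add_two
      omega

/-! ### Parity -/

/-- the parity of the number of ones in the Fibonacci representation -/
def pt (n : ℕ) : Bool := (zeckendorf n).length % 2 == 1

theorem t_eq (n : ℕ) : t n = (pt n).toNat := by
  unfold t pt
  rcases Nat.mod_two_eq_zero_or_one (zeckendorf n).length with h | h <;> simp [h]

theorem pt_zero : pt 0 = false := by simp [pt]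

theorem pt_fib_add {k n : ℕ} (h : n < fib (k + 1)) : pt (fib (k + 2) + n) = !pt n := by
  have h1 : greatestFib (fib (k + 2) + n) = k + 2 := by
    apply le_antisymm
    · have : greatestFib (fib (k + 2) + n) < k + 3 := by
        rw [greatestFib_lt]
        have h3 : fib (k + 3) = fib (k + 1) + fib (k + 2) := fib_add_two
        omega
      omega
    · rw [le_greatestFib]
      omega
  have h2 : 0 < fib (k + 2) + n := by
    have := fib_pos.2 (show 0 < k + 2 by omega)
    omega
  unfold pt
  rw [zeckendorf_of_pos h2, h1]
  simp only [Nat.add_sub_cancel_left, List.length_cons]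
  rcases Nat.mod_two_eq_zero_or_one (zeckendorf n).length with h | h
  · have : ((zeckendorf n).length + 1) % 2 = 1 := by omega
    simp [h, this]
  · have : ((zeckendorf n).length + 1) % 2 = 0 := by omega
    simp [h, this]

theorem pt_one : pt 1 = true := by
  have := pt_fib_add (k := 0) (n := 0) (by simp)
  simpa [pt_zero] using this

/-! ### The automaton with a mark -/

/-- states -/
inductive St
  | pre (p0 p1 l : Bool)
  | w (a b : Bool)
  | z (b : Bool)
  | c (b : Bool)
  | c1 (b : Bool)
  deriving DecidableEq

/-- reading an unmarked digit -/
def st0 : St → Bool → St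
  | .pre p0 p1 l, false => .pre p0 (if l then p1 else !p0) false
  | .pre p0 p1 _, true => .pre (!p0) p1 true
  | .w a _, false => .z a
  | .w _ b, true => .z b
  | .z b, e => .z (xor b e)
  | .c b, _ => .c1 b
  | .c1 b, false => .w (!b) (!b)
  | .c1 b, true => .c (!b)

/-- reading the marked digit -/
def stM : St → Bool → St
  | .pre p0 p1 l, false => if l then .z p1 else .w (!p0) p1
  | .pre _ p1 _, true => .c p1
  | q, _ => q

/-- output -/
def out : St → Bool
  | .pre _ _ _ => false
  | .w a _ => a
  | .z b => b
  | .c b => b
  | .c1 b => !b

def run0 : St → List Bool → St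
  | q, [] => q
  | q, e :: x => run0 (st0 q e) x

def runM : St → List Bool → ℕ → St
  | q, [], _ => q
  | q, e :: x, 0 => run0 (stM q e) x
  | q, e :: x, i + 1 => runM (st0 q e) x i

theorem run0_append (q : St) (x y : List Bool) : run0 q (x ++ y) = run0 (run0 q x) y := by
  induction x generalizing q with
  | nil => rfl
  | cons a x ih => simp [run0, ih]

theorem runM_append_lt (q : St) (x y : List Bool) (i : ℕ) (h : i < x.length) :
    runM q (x ++ y) i = run0 (runM q x i) y := by
  induction x generalizing q i with
  | nil => simp at h
  | cons a x ih =>
    cases i with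
    | zero => simp [runM, run0_append]
    | succ i =>
      simp only [List.cons_append, runM]
      exact ih _ _ (by simpa using h)

theorem runM_append_ge (q : St) (x y : List Bool) (i : ℕ) :
    runM q (x ++ y) (x.length + i) = runM (run0 q x) y i := by
  induction x generalizing q with
  | nil => simp [run0]
  | cons a x ih =>
    simp only [List.cons_append, List.length_cons, run0]
    rw [show x.length + 1 + i = (x.length + i) + 1 by ring, runM]
    exact ih _

theorem runM_of_le (q : St) (x : List Bool) (i : ℕ) (h : x.length ≤ i) : runM q x i = run0 q x := by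
  induction x generalizing q i with
  | nil => rfl
  | cons a x ih =>
    cases i with
    | zero => simp at h
    | succ i =>
      simp only [runM, run0]
      exact ih _ _ (by simpa using h)

theorem run0_pre (p0 p1 l : Bool) (x : List Bool) :
    ∃ p0' p1', run0 (.pre p0 p1 l) x = .pre p0' p1' (lst l x) := by
  induction x generalizing p0 p1 l with
  | nil => exact ⟨_, _, rfl⟩
  | cons a x ih =>
    cases a with
    | false =>
      simp only [run0, st0, lst]
      exact ih _ _ _
    | true =>
      simp only [run0, st0, lst]
      exact ih _ _ _

/-! ### Semantics -/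

theorem run0_z (b : Bool) {x : List Bool} {e : Bool} (h : ok e x) :
    out (run0 (.z b) x) = xor b (pt (val x)) := by
  induction x generalizing b e with
  | nil => simp [run0, out, val, pt_zero]
  | cons a x ih =>
    cases a with
    | false =>
      have := ih (b := b) (e := false) h
      simp only [run0, st0, Bool.xor_false, val, Bool.false_eq_true, if_false, zero_add]
      exact this
    | true =>
      have h1 := ih (b := xor b true) h.2
      simp only [run0, st0, val, if_true]
      rw [h1, pt_fib_add (by simpa using val_lt h.2)]
      simp

theorem run0_c_c1 (n : ℕ) : ∀ (b : Bool) (x : List Bool), x.length ≤ n →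
    (ok true x → out (run0 (.c b) x) = xor b (pt (val x + fib x.length))) ∧
    (ok false x → out (run0 (.c1 b) x) = xor b (pt (val x + fib (x.length + 1)))) := by
  induction n with
  | zero =>
    intro b x hx
    obtain rfl : x = [] := List.length_eq_zero_iff.1 (by omega)
    simp [run0, out, val, pt_zero, pt_one]
  | succ n ih =>
    intro b x hx
    constructor
    · intro h
      cases x with
      | nil => simp [run0, out, val, pt_zero]
      | cons a x =>
        cases a with
        | true => exact absurd h.1 (by simp)
        | false =>
          have h1 := (ih b x (by simpa using hx)).2 h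
          simp only [run0, st0, val, Bool.false_eq_true, if_false, zero_add, List.length_cons]
          exact h1
    · intro h
      cases x with
      | nil => simp [run0, out, val, pt_one]
      | cons a x =>
        cases a with
        | true =>
          have h1 := (ih (!b) x (by simpa using hx)).1 h.2
          simp only [run0, st0, val, if_true, List.length_cons]
          rw [h1]
          have h2 := val_lt h.2
          simp only [if_true] at h2
          have e1 : fib (x.length + 2) = fib x.length + fib (x.length + 1) := fib_add_two
          have e2 : fib (x.length + 3) = fib (x.length + 1) + fib (x.length + 2) := fib_add_two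
          have h3 : fib (x.length + 2) + val x + fib (x.length + 1 + 1) =
              fib (x.length + 1 + 2) + (val x + fib x.length) := by
            rw [show x.length + 1 + 1 = x.length + 2 by ring,
              show x.length + 1 + 2 = x.length + 3 by ring]
            omega
          rw [h3, pt_fib_add]
          · simp
          · rw [show x.length + 1 + 1 = x.length + 2 by ring]
            omega
        | false =>
          cases x with
          | nil => simp [run0, st0, out, val, pt_one]
          | cons a' x =>
            cases a' with
            | true =>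
              have h1 := run0_z (!b) h.2
              have h2 := val_lt h.2
              simp only [if_true] at h2
              simp only [run0, st0, val, Bool.false_eq_true, if_false, if_true, List.length_cons,
                zero_add]
              rw [h1]
              have e2 : fib (x.length + 4) = fib (x.length + 2) + fib (x.length + 3) := fib_add_two
              have e3 : fib (x.length + 3) = fib (x.length + 1) + fib (x.length + 2) := fib_add_two
              have h3 : fib (x.length + 2) + val x + fib (x.length + 1 + 1 + 1) =
                  fib (x.length + 2 + 2) + val x := by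
                rw [show x.length + 1 + 1 + 1 = x.length + 3 by ring,
                  show x.length + 2 + 2 = x.length + 4 by ring]
                omega
              rw [h3, pt_fib_add]
              · simp
              · rw [show x.length + 2 + 1 = x.length + 3 by ring]
                omega
            | false =>
              have h0 : ok false x := h
              have h1 := run0_z (!b) h0
              have h2 := val_lt h0
              simp only [Bool.false_eq_true, if_false] at h2
              simp only [run0, st0, val, Bool.false_eq_true, if_false, List.length_cons, zero_add]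
              rw [h1]
              rw [show x.length + 1 + 1 + 1 = (x.length + 1) + 2 by ring, add_comm (val x),
                pt_fib_add h2]
              simp

/-- the invariant of the states before the mark; `A k` is the value of the word followed by `k`
zeros -/
def Inv (A : ℕ → ℕ) (p0 p1 l : Bool) : Prop :=
  ∀ k, (∀ n < fib (k + if l then 1 else 2), pt (A k + n) = xor p0 (pt n)) ∧
    (∀ n < fib (k + 1), pt (A k + fib (k + if l then 1 else 2) + n) = xor p1 (pt n))

theorem inv_init : Inv (fun _ => 0) false true false := by
  intro k
  refine ⟨fun n _ => by simp, fun n hn => ?_⟩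
  simp only [Bool.false_eq_true, if_false, zero_add]
  rw [pt_fib_add hn]
  simp

theorem inv_false {A : ℕ → ℕ} {p0 p1 l : Bool} (h : Inv A p0 p1 l) :
    Inv (fun k => A (k + 1)) p0 (if l then p1 else !p0) false := by
  intro k
  have h1 := h (k + 1)
  have e2 : fib (k + 3) = fib (k + 1) + fib (k + 2) := fib_add_two
  have e3 : fib (k + 2) ≤ fib (k + 3) := fib_mono (by omega)
  cases l with
  | false =>
    simp only [Bool.false_eq_true, if_false] at h1 ⊢
    rw [show k + 1 + 2 = k + 3 by ring] at h1
    refine ⟨fun n hn => h1.1 n (by omega), fun n hn => ?_⟩
    rw [add_assoc, h1.1 _ (by omega), pt_fib_add hn]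
    simp
  | true =>
    simp only [Bool.false_eq_true, if_false, if_true] at h1 ⊢
    rw [show k + 1 + 1 = k + 2 by ring] at h1
    exact ⟨fun n hn => h1.1 n hn, fun n hn => h1.2 n (by
      have : fib (k + 1) ≤ fib (k + 2) := fib_mono (by omega)
      omega)⟩

theorem inv_true {A : ℕ → ℕ} {p0 p1 : Bool} (h : Inv A p0 p1 false) :
    Inv (fun k => A (k + 1) + fib (k + 2)) (!p0) p1 true := by
  intro k
  have h1 := h (k + 1)
  have e2 : fib (k + 3) = fib (k + 1) + fib (k + 2) := fib_add_two
  simp only [Bool.false_eq_true, if_false, if_true] at h1 ⊢
  rw [show k + 1 + 2 = k + 3 by ring, show k + 1 + 1 = k + 2 by ring] at h1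
  have e4 : fib (k + 1) ≤ fib (k + 2) := fib_mono (by omega)
  constructor
  · intro n hn
    rw [add_assoc, h1.1 _ (by omega), pt_fib_add hn]
    simp
  · intro n hn
    have h3 : A (k + 1) + fib (k + 2) + fib (k + 1) + n = A (k + 1) + fib (k + 3) + n := by omega
    rw [h3, h1.2 n (by omega)]

theorem mark {A : ℕ → ℕ} {p0 p1 l : Bool} (h : Inv A p0 p1 l) (e : Bool) (x : List Bool)
    (hok : ok l (e :: x)) : out (run0 (stM (.pre p0 p1 l) e) x) =
      pt (A (x.length + 1) + val (e :: x) + fib (x.length + 2)) := by
  have h1 := h (x.length + 1)
  have e2 : fib (x.length + 3) = fib (x.length + 1) + fib (x.length + 2) := fib_add_two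
  have e4 : fib (x.length + 1) ≤ fib (x.length + 2) := fib_mono (by omega)
  rw [show x.length + 1 + 1 = x.length + 2 by ring] at h1
  cases e with
  | true =>
    obtain ⟨rfl, hx⟩ := hok
    simp only [Bool.false_eq_true, if_false] at h1
    rw [show x.length + 1 + 2 = x.length + 3 by ring] at h1
    have h2 := ((run0_c_c1 x.length p1 x le_rfl).1 hx)
    have h3 := val_lt hx
    simp only [if_true] at h3
    have e5 : fib (x.length + 2) = fib x.length + fib (x.length + 1) := fib_add_two
    simp only [stM, val, if_true]
    rw [h2]
    have h4 : A (x.length + 1) + (fib (x.length + 2) + val x) + fib (x.length + 2) =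
        A (x.length + 1) + fib (x.length + 3) + (val x + fib x.length) := by omega
    rw [h4, h1.2 _ (by omega)]
  | false =>
    have hx : ok false x := hok
    have h3 := val_lt hx
    simp only [Bool.false_eq_true, if_false] at h3
    cases l with
    | true =>
      simp only [if_true] at h1
      simp only [stM, val, Bool.false_eq_true, if_false, if_true, zero_add]
      rw [run0_z p1 hx, show x.length + 1 + 1 = x.length + 2 by ring] at *
      have h4 : A (x.length + 1) + val x + fib (x.length + 2) =
        A (x.length + 1) + fib (x.length + 2) + val x := by omega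
      rw [h4, h1.2 _ h3]
    | false =>
      simp only [Bool.false_eq_true, if_false] at h1
      rw [show x.length + 1 + 2 = x.length + 3 by ring] at h1
      simp only [stM, val, Bool.false_eq_true, if_false, zero_add]
      cases x with
      | nil =>
        simp only [run0, out, val, List.length_nil, zero_add, add_zero] at h1 ⊢
        have := h1.1 (fib 2) (by decide)
        rw [this]
        simp [pt_one]
      | cons a x =>
        cases a with
        | true =>
          simp only [run0, st0, val, if_true, List.length_cons] at h1 h3 e2 e4 ⊢
          rw [run0_z p1 hx.2]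
          have h5 := val_lt hx.2
          simp only [if_true] at h5
          rw [show x.length + 1 + 2 = x.length + 3 by ring] at *
          rw [show x.length + 1 + 3 = x.length + 4 by ring] at *
          rw [show x.length + 1 + 1 = x.length + 2 by ring] at *
          have e6 : fib (x.length + 3) = fib (x.length + 1) + fib (x.length + 2) := fib_add_two
          have h4 : A (x.length + 2) + (fib (x.length + 2) + val x) + fib (x.length + 3) =
            A (x.length + 2) + fib (x.length + 4) + val x := by omega
          rw [h4, h1.2 _ (by omega)]
        | false =>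
          simp only [run0, st0, val, Bool.false_eq_true, if_false, List.length_cons, zero_add]
            at h1 h3 e2 e4 ⊢
          have hx' : ok false x := hx
          rw [run0_z (!p0) hx']
          have h5 := val_lt hx'
          simp only [Bool.false_eq_true, if_false] at h5
          have h6 : val x < fib (x.length + 1 + 1) := h5
          have h4 : A (x.length + 1 + 1) + val x + fib (x.length + 1 + 2) =
            A (x.length + 1 + 1) + (fib (x.length + 1 + 2) + val x) := by omega
          rw [h4, h1.1 _ (by omega), pt_fib_add (k := x.length + 1) h6]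
          simp

theorem runM_spec {A : ℕ → ℕ} {p0 p1 l : Bool} (h : Inv A p0 p1 l) (y : List Bool)
    (hok : ok l y) (i : ℕ) (hi : i < y.length) :
    out (runM (.pre p0 p1 l) y i) = pt (A y.length + val y + fib (y.length - i + 1)) := by
  induction y generalizing A p0 p1 l i with
  | nil => simp at hi
  | cons e x ih =>
    cases i with
    | zero =>
      simp only [runM]
      rw [mark h e x hok]
      simp
    | succ i =>
      have hi' : i < x.length := by simpa using hi
      cases e with
      | false =>
        simp only [runM, st0]
        rw [ih (inv_false h) hok i hi']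
        simp [val]
      | true =>
        obtain ⟨rfl, hx⟩ := hok
        simp only [runM, st0]
        rw [ih (inv_true h) hx i hi']
        simp only [val, if_true, List.length_cons]
        congr 1
        have : x.length + 1 - (i + 1) = x.length - i := by omega
        rw [this]
        ring

/-! ### Equivalence of words -/

/-- two words which act in the same way, for every position of the mark -/
def Eqv (v v' : List Bool) : Prop :=
  v.length = v'.length ∧ (∀ q, run0 q v = run0 q v') ∧
    ∀ p0 p1 l i, runM (.pre p0 p1 l) v i = runM (.pre p0 p1 l) v' i

theorem Eqv.refl (v : List Bool) : Eqv v v := ⟨rfl, fun _ => rfl, fun _ _ _ _ => rfl⟩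

theorem Eqv.append {b b' v v' : List Bool} (h1 : Eqv b b') (h2 : Eqv v v') :
    Eqv (b ++ v) (b' ++ v') := by
  refine ⟨by simp [h1.1, h2.1], fun q => ?_, fun p0 p1 l i => ?_⟩
  · rw [run0_append, run0_append, h1.2.1, h2.2.1]
  · by_cases hi : i < b.length
    · rw [runM_append_lt _ _ _ _ hi, runM_append_lt _ _ _ _ (h1.1 ▸ hi), h1.2.2, h2.2.1]
    · obtain ⟨j, rfl⟩ := Nat.exists_eq_add_of_le (not_lt.1 hi)
      rw [runM_append_ge]
      conv_rhs => rw [h1.1, runM_append_ge]
      rw [← h1.2.1]
      obtain ⟨p0', p1', h3⟩ := run0_pre p0 p1 l b
      rw [h3, h2.2.2]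

/-- the block `0010010101000` -/
def B : List Bool :=
  [false, false, true, false, false, true, false, true, false, true, false, false, false]

/-- the block `0010101001000` -/
def B' : List Bool :=
  [false, false, true, false, true, false, true, false, false, true, false, false, false]

theorem eqv_B : Eqv B B' := by
  refine ⟨rfl, ?_, ?_⟩
  · intro q
    cases q with
    | pre a b c => cases a <;> cases b <;> cases c <;> rfl
    | w a b => cases a <;> cases b <;> rfl
    | z b => cases b <;> rfl
    | c b => cases b <;> rfl
    | c1 b => cases b <;> rfl
  · intro p0 p1 l i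
    by_cases hi : 13 ≤ i
    · rw [runM_of_le _ _ _ (by simpa [B] using hi), runM_of_le _ _ _ (by simpa [B'] using hi)]
      cases p0 <;> cases p1 <;> cases l <;> rfl
    · push Not at hi
      interval_cases i <;> cases p0 <;> cases p1 <;> cases l <;> rfl

/-! ### Counting -/

/-- the words of length `k` that can follow the digit `e` -/
def words : ℕ → Bool → List (List Bool)
  | 0, _ => [[]]
  | k + 1, false => (words k false).map (false :: ·) ++ (words k true).map (true :: ·)
  | k + 1, true => (words k false).map (false :: ·)

theorem mem_words (k : ℕ) (e : Bool) (x : List Bool) :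
    x ∈ words k e ↔ x.length = k ∧ ok e x := by
  induction k generalizing e x with
  | zero =>
    cases x with
    | nil => simp [words, ok]
    | cons a x => simp [words]
  | succ k ih =>
    cases x with
    | nil => cases e <;> simp [words]
    | cons a x =>
      cases e <;> cases a <;> simp [words, ih, ok]

/-- the blocks used in canonical words -/
def blocks (e : Bool) : List (List Bool) := (words 13 e).filter (· ≠ B)

/-- the canonical words with `n` blocks that can follow the digit `e` -/
def C : ℕ → Bool → List (List Bool)
  | 0, _ => [[]]
  | n + 1, e => (blocks e).flatMap fun b => (C n (lst e b)).map (b ++ ·)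

theorem exists_canon (n : ℕ) (e : Bool) (v : List Bool) (hl : v.length = 13 * n) (hv : ok e v) :
    ∃ v' ∈ C n e, Eqv v v' := by
  induction n generalizing e v with
  | zero =>
    obtain rfl : v = [] := List.length_eq_zero_iff.1 (by omega)
    exact ⟨[], by simp [C], Eqv.refl _⟩
  | succ n ih =>
    obtain ⟨b, v1, rfl, hb⟩ : ∃ b v1, v = b ++ v1 ∧ b.length = 13 :=
      ⟨v.take 13, v.drop 13, (List.take_append_drop _ _).symm, by
        rw [List.length_take]; omega⟩
    rw [ok_append] at hv
    obtain ⟨v', hv', h1⟩ := ih (lst e b) v1 (by
      rw [List.length_append] at hl; omega) hv.2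
    by_cases hB : b = B
    · subst hB
      refine ⟨B' ++ v', ?_, eqv_B.append h1⟩
      rw [C, List.mem_flatMap]
      refine ⟨B', ?_, List.mem_map.2 ⟨v', ?_, rfl⟩⟩
      · rw [blocks, List.mem_filter, mem_words]
        refine ⟨⟨rfl, ?_⟩, by decide⟩
        simp [B', ok]
      · exact hv'
    · refine ⟨b ++ v', ?_, (Eqv.refl b).append h1⟩
      rw [C, List.mem_flatMap]
      refine ⟨b, ?_, List.mem_map.2 ⟨v', hv', rfl⟩⟩
      rw [blocks, List.mem_filter, mem_words]
      exact ⟨⟨hb, hv.1⟩, by simpa using hB⟩

theorem length_C_succ (n : ℕ) (e : Bool) : (C (n + 1) e).length =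
    (blocks e).countP (fun b => !lst e b) * (C n false).length +
      (blocks e).countP (fun b => lst e b) * (C n true).length := by
  rw [C, List.length_flatMap]
  simp only [List.length_map]
  generalize blocks e = l
  induction l with
  | nil => simp
  | cons b l ih =>
    rw [List.map_cons, List.sum_cons, ih, List.countP_cons, List.countP_cons]
    cases hb : lst e b <;> simp <;> ring

theorem count_ff : (blocks false).countP (fun b => !lst false b) = 376 := by decide +kernel
theorem count_ft : (blocks false).countP (fun b => lst false b) = 233 := by decide +kernel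
theorem count_tf : (blocks true).countP (fun b => !lst true b) = 232 := by decide +kernel
theorem count_tt : (blocks true).countP (fun b => lst true b) = 144 := by decide +kernel

theorem length_C (n : ℕ) : 29 * (C n false).length + 18 * (C n true).length ≤ 47 * 520 ^ n := by
  induction n with
  | zero => simp [C]
  | succ n ih =>
    rw [length_C_succ, length_C_succ, count_ff, count_ft, count_tf, count_tt, pow_succ]
    nlinarith

/-! ### The automaton for the shift by `F_{13n+1}` -/

/-- the residual of the word `w` -/
def rho (c : ℕ) (w : List Bool) : List Bool → Option ℕ := fun x =>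
  if ok false (w ++ x) then some (t (val (w ++ x) + c)) else none

/-- the last digit stored in a state -/
def flag : St → Bool
  | .pre _ _ l => l
  | _ => false

/-- the residual computed from a state and a canonical word -/
def phi (q : St) (v : List Bool) : List Bool → Option ℕ := fun x =>
  if ok (flag (run0 q v)) x then some (out (runM q (v ++ x) x.length)).toNat else none

theorem ok_replicate (k : ℕ) (w : List Bool) : ok false (List.replicate k false ++ w) ↔ ok false w := by
  induction k with
  | zero => rfl
  | succ k ih =>
    rw [List.replicate_succ]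
    exact ih

theorem rho_eq (n : ℕ) (hn : 1 ≤ n) (w : List Bool) (hw : ok false w) :
    ∃ p0 p1 l, ∃ v ∈ C n l, rho (fib (13 * n + 1)) w = phi (.pre p0 p1 l) v := by
  obtain ⟨a, v, hav, ha⟩ : ∃ a v, List.replicate (13 * n) false ++ w = a ++ v ∧
      a.length = w.length := by
    refine ⟨(List.replicate (13 * n) false ++ w).take w.length,
      (List.replicate (13 * n) false ++ w).drop w.length,
      (List.take_append_drop _ _).symm, ?_⟩
    rw [List.length_take, List.length_append]
    omega
  have hvl : v.length = 13 * n := by
    have := congrArg List.length hav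
    simp only [List.length_append, List.length_replicate] at this
    omega
  have hok : ok false (a ++ v) := by
    rw [← hav, ok_replicate]
    exact hw
  rw [ok_append] at hok
  obtain ⟨v', hv', hE⟩ := exists_canon n (lst false a) v hvl hok.2
  obtain ⟨p0, p1, hp⟩ := run0_pre false true false a
  refine ⟨p0, p1, lst false a, v', hv', ?_⟩
  have hflag : flag (run0 (.pre p0 p1 (lst false a)) v') = lst (lst false a) v := by
    rw [← hE.2.1]
    obtain ⟨p0', p1', h⟩ := run0_pre p0 p1 (lst false a) v
    rw [h]
    rfl
  funext x
  unfold rho phi
  rw [hflag]
  have hiff : ok false (w ++ x) ↔ ok (lst (lst false a) v) x := by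
    rw [← ok_replicate (13 * n), ← List.append_assoc, hav, List.append_assoc, ok_append, ok_append]
    exact ⟨fun h => h.2.2, fun h => ⟨hok.1, hok.2, h⟩⟩
  by_cases hx : ok false (w ++ x)
  · rw [if_pos hx, if_pos (hiff.1 hx)]
    congr 1
    have hval : val (w ++ x) = val (a ++ (v ++ x)) := by
      rw [← List.append_assoc, ← hav, List.append_assoc, val_replicate_append]
    have hokx : ok false (a ++ (v ++ x)) := by
      rw [← List.append_assoc, ← hav, List.append_assoc, ok_replicate]
      exact hx
    have hspec := runM_spec inv_init (a ++ (v ++ x)) hokx (a.length + x.length) (by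
      simp only [List.length_append, hvl]
      omega)
    have hidx : (a ++ (v ++ x)).length - (a.length + x.length) + 1 = 13 * n + 1 := by
      simp only [List.length_append, hvl]
      omega
    rw [runM_append_ge, hp, (hE.append (Eqv.refl x)).2.2, hidx, zero_add] at hspec
    rw [t_eq, hval, hspec]
  · rw [if_neg hx, if_neg (fun h => hx (hiff.2 h))]

/-- the set of residuals -/
def R (c : ℕ) : Set (List Bool → Option ℕ) := {f | ∃ w, ok false w ∧ f = rho c w}

/-- a list containing the residuals -/
def L (n : ℕ) : List (List Bool → Option ℕ) :=
  [(false, false), (false, true), (true, false), (true, true)].flatMap fun p =>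
    (C n false).map (phi (.pre p.1 p.2 false)) ++ (C n true).map (phi (.pre p.1 p.2 true))

theorem R_subset (n : ℕ) (hn : 1 ≤ n) : R (fib (13 * n + 1)) ⊆ {f | f ∈ L n} := by
  rintro f ⟨w, hw, rfl⟩
  obtain ⟨p0, p1, l, v, hv, h⟩ := rho_eq n hn w hw
  rw [h]
  change _ ∈ L n
  unfold L
  rw [List.mem_flatMap]
  refine ⟨(p0, p1), by cases p0 <;> cases p1 <;> simp, ?_⟩
  rw [List.mem_append]
  cases l with
  | false => exact Or.inl (List.mem_map.2 ⟨v, hv, rfl⟩)
  | true => exact Or.inr (List.mem_map.2 ⟨v, hv, rfl⟩)

theorem finite_R (n : ℕ) (hn : 1 ≤ n) : (R (fib (13 * n + 1))).Finite :=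
  (List.finite_toSet (L n)).subset (R_subset n hn)

theorem ncard_R (n : ℕ) (hn : 1 ≤ n) : (R (fib (13 * n + 1))).ncard ≤ 11 * 520 ^ n := by
  classical
  have h1 : (R (fib (13 * n + 1))).ncard ≤ ((L n).toFinset : Set (List Bool → Option ℕ)).ncard := by
    apply Set.ncard_le_ncard _ (Finset.finite_toSet _)
    intro f hf
    simpa using R_subset n hn hf
  rw [Set.ncard_coe_finset] at h1
  have h2 := List.toFinset_card_le (L n)
  have h3 : (L n).length = 4 * ((C n false).length + (C n true).length) := by
    simp [L]
    ring
  have h4 := length_C n
  omega

/-- the automaton whose states are the residuals -/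
@[reducible] noncomputable def aut (c : ℕ) (h : (R c).Finite) : FibDFAO where
  Q := R c
  fin := h.fintype
  δ := fun q a => by
    classical
    exact if h : (fun x => q.1 (a :: x)) ∈ R c then some ⟨_, h⟩ else none
  q0 := ⟨rho c [], [], trivial, rfl⟩
  τ := fun q => (q.1 []).getD 0

theorem FibDFAO.runFrom_cons (M : FibDFAO) (q : M.Q) (a : Bool) (x : List Bool) :
    M.runFrom q (a :: x) = (M.δ q a).bind fun q' => M.runFrom q' x := rfl

theorem aut_runFrom (c : ℕ) (h : (R c).Finite) (x w : List Bool) (hwx : ok false (w ++ x))
    (hw : rho c w ∈ R c) : ∃ hq : rho c (w ++ x) ∈ R c,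
      (aut c h).runFrom (⟨rho c w, hw⟩ : R c) x = some (⟨rho c (w ++ x), hq⟩ : R c) := by
  induction x generalizing w with
  | nil =>
    refine ⟨by simpa using hw, ?_⟩
    simp only [FibDFAO.runFrom, List.append_nil]
  | cons a x ih =>
    have h1 : w ++ a :: x = (w ++ [a]) ++ x := by simp
    have h2 : (fun x => rho c w (a :: x)) = rho c (w ++ [a]) := by
      funext y
      simp [rho]
    have h3 : ok false (w ++ [a]) := by
      rw [h1, ok_append] at hwx
      exact hwx.1
    have h4 : rho c (w ++ [a]) ∈ R c := ⟨_, h3, rfl⟩
    have h5 : (aut c h).δ (⟨rho c w, hw⟩ : R c) a = some (⟨rho c (w ++ [a]), h4⟩ : R c) := by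
      simp only [aut, h2, h4, dite_true]
    obtain ⟨hq, h6⟩ := ih (w ++ [a]) (by rwa [← h1]) h4
    refine ⟨by rwa [h1], ?_⟩
    rw [FibDFAO.runFrom_cons, h5]
    simp only [Option.bind_some]
    rw [h6]
    exact congrArg some (Subtype.ext (congrArg (rho c) h1.symm))

theorem aut_generates (c : ℕ) (h : (R c).Finite) : (aut c h).Generates (fun i => t (i + c)) := by
  intro x hx
  rw [noAdj_iff] at hx
  obtain ⟨hq, h1⟩ := aut_runFrom c h x [] hx ⟨[], trivial, rfl⟩
  refine ⟨_, h1, ?_⟩
  change ((rho c ([] ++ x)) []).getD 0 = _
  simp [rho, hx]

theorem exists_aut (n : ℕ) (hn : 1 ≤ n) : ∃ M : FibDFAO,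
    M.Generates (fun i => t (i + fib (13 * n + 1))) ∧ M.numStates ≤ 11 * 520 ^ n := by
  refine ⟨aut _ (finite_R n hn), aut_generates _ _, ?_⟩
  have h1 : (aut _ (finite_R n hn)).numStates = (R (fib (13 * n + 1))).ncard := by
    rw [← Nat.card_coe_set_eq, @Nat.card_eq_fintype_card _ (finite_R n hn).fintype]
    rfl
  rw [h1]
  exact ncard_R n hn

theorem S_le (n : ℕ) (hn : 1 ≤ n) : S (fib (13 * n + 1)) ≤ 11 * 520 ^ n := by
  obtain ⟨M, h1, h2⟩ := exists_aut n hn
  unfold S
  refine (Nat.sInf_le ?_).trans h2
  exact ⟨M, h1, rfl⟩

/-! ### Growth of the Fibonacci numbers -/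

theorem fib_ratio (k : ℕ) : 1617 * fib (k + 9) ≤ 1000 * fib (k + 10) ∧
    1000 * fib (k + 10) ≤ 1619 * fib (k + 9) := by
  induction k with
  | zero => decide
  | succ k ih =>
    have h : fib (k + 1 + 10) = fib (k + 9) + fib (k + 10) := fib_add_two
    have h2 : k + 1 + 9 = k + 10 := by ring
    rw [h, h2]
    constructor <;> omega

theorem fib_growth (n : ℕ) : (377 : ℝ) * (520.7 : ℝ) ^ n ≤ fib (13 * (n + 1) + 1) := by
  induction n with
  | zero => norm_num
  | succ n ih =>
    have h1 : fib (13 * (n + 1 + 1) + 1) =
        fib (13 * (n + 1) + 1) * fib 12 + fib (13 * (n + 1) + 2) * fib 13 := by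
      have := fib_add (13 * (n + 1) + 1) 12
      rw [show 13 * (n + 1) + 1 + 12 + 1 = 13 * (n + 1 + 1) + 1 by ring,
        show 13 * (n + 1) + 1 + 1 = 13 * (n + 1) + 2 by ring] at this
      rw [this]
    have h12 : fib 12 = 144 := by decide
    have h13 : fib 13 = 233 := by decide
    have h2 := (fib_ratio (13 * n + 5)).1
    rw [show 13 * n + 5 + 9 = 13 * (n + 1) + 1 by ring,
      show 13 * n + 5 + 10 = 13 * (n + 1) + 2 by ring] at h2
    have h3 : (1617 : ℝ) * fib (13 * (n + 1) + 1) ≤ 1000 * fib (13 * (n + 1) + 2) := by
      exact_mod_cast h2
    rw [h1, h12, h13, pow_succ]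
    push_cast
    have h4 : (0 : ℝ) ≤ fib (13 * (n + 1) + 1) := Nat.cast_nonneg _
    nlinarith

open Filter in
theorem frequently_le (ε : ℝ) (hε : 0 < ε) : ∃ᶠ c : ℕ in atTop, (S c : ℝ) / c ≤ ε := by
  have h1 : Tendsto (fun n : ℕ => (16 : ℝ) * (520 / 520.7) ^ n) atTop (nhds 0) := by
    have := (tendsto_pow_atTop_nhds_zero_of_lt_one (r := (520 / 520.7 : ℝ)) (by norm_num)
      (by norm_num)).const_mul 16
    simpa using this
  have h2 : ∀ᶠ n : ℕ in atTop, (16 : ℝ) * (520 / 520.7) ^ n ≤ ε :=
    (h1.eventually (gt_mem_nhds hε)).mono fun n h => h.le
  have h3 : Tendsto (fun n : ℕ => fib (13 * (n + 1) + 1)) atTop atTop := by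
    apply tendsto_atTop_mono (f := fun n : ℕ => n) _ tendsto_id
    intro n
    have := Nat.le_fib_add_one (13 * (n + 1) + 1)
    omega
  refine h3.frequently (h2.frequently.mono fun n hn => ?_)
  have h4 : (S (fib (13 * (n + 1) + 1)) : ℝ) ≤ 11 * 520 ^ (n + 1) := by
    exact_mod_cast S_le (n + 1) (by omega)
  have h5 := fib_growth n
  have h6 : (0 : ℝ) < 377 * (520.7 : ℝ) ^ n := by positivity
  calc (S (fib (13 * (n + 1) + 1)) : ℝ) / fib (13 * (n + 1) + 1)
      ≤ (11 * 520 ^ (n + 1)) / (377 * (520.7 : ℝ) ^ n) := by
        apply div_le_div₀ (by positivity) h4 h6 h5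
    _ = (11 * 520 / 377) * (520 / 520.7) ^ n := by
        rw [div_pow, pow_succ]
        field_simp
    _ ≤ 16 * (520 / 520.7) ^ n := by
        apply mul_le_mul_of_nonneg_right _ (by positivity)
        norm_num
    _ ≤ ε := hn

open Filter in
/-- **The state complexity `S(c)` of the shifts of the Fibonacci-Thue-Morse sequence is not
`Θ(c)`.** For `c = F_{13n+1}` the shifted sequence is generated by a Fibonacci-DFAO with at most
`11 * 520 ^ n` states, and `liminf S(c) / c = 0`. -/
theorem result :
    (∀ n, 1 ≤ n → ∃ M : FibDFAO, M.Generates (fun i => t (i + fib (13 * n + 1))) ∧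
      M.numStates ≤ 11 * 520 ^ n) ∧
    liminf (fun c : ℕ => (S c : ℝ) / c) atTop = 0 ∧
    ¬ ∃ κ : ℝ, 0 < κ ∧ ∀ᶠ c : ℕ in atTop, κ * c ≤ S c := by
  refine ⟨exists_aut, ?_, ?_⟩
  · have hb : IsBoundedUnder (· ≥ ·) atTop (fun c : ℕ => (S c : ℝ) / c) :=
      ⟨0, by
        rw [eventually_map]
        exact Eventually.of_forall fun c => by positivity⟩
    apply le_antisymm
    · apply le_of_forall_pos_le_add
      intro ε hε
      rw [zero_add]
      exact liminf_le_of_frequently_le (frequently_le ε hε) hb
    · apply le_liminf_of_le (IsCoboundedUnder.of_frequently_le (frequently_le 1 one_pos))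
      exact Eventually.of_forall fun c => by positivity
  · rintro ⟨κ, hκ, h⟩
    have h1 := (frequently_le (κ / 2) (by positivity)).and_eventually
      (h.and (eventually_gt_atTop 0))
    obtain ⟨c, h2, h3, h4⟩ := h1.exists
    have h5 : (0 : ℝ) < c := by exact_mod_cast h4
    rw [div_le_iff₀ h5] at h2
    have : 0 < κ * c := by positivity
    linarith

end Pool.Agent.Results.MP_0deb22_lc.LiminfZero
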